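import Pool.Agent.W307.QF.Stm
set_option autoImplicit false

/-! Project QF, part LOCC. -/

namespace Pool.Agent.W479.QF

open Finset Polynomial
open Pool.Agent.W307.QF (nz LOCC)

lemma sum_sq (p : ℕ) (hp : 0 < p) (f : ℕ → ℕ) :
    ∑ x ∈ range (p ^ 2), f x = ∑ a ∈ range p, ∑ t ∈ range p, f (a + p * t) := by
  rw [← Finset.sum_product' (range p) (range p) (fun a t => f (a + p * t))]
  refine Finset.sum_nbij' (fun x => (x % p, x / p)) (fun q => q.1 + p * q.2) ?_ ?_ ?_ ?_ ?_
  · intro x hx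
    rw [mem_range] at hx
    rw [mem_product, mem_range, mem_range]
    refine ⟨Nat.mod_lt _ hp, ?_⟩
    apply Nat.div_lt_of_lt_mul
    rw [← sq]
    exact hx
  · intro q hq
    rw [mem_product, mem_range, mem_range] at hq
    rw [mem_range]
    have h1 : p * (q.2 + 1) ≤ p * p := Nat.mul_le_mul_left p hq.2
    rw [sq]
    have h2 := hq.1
    rw [mul_add, mul_one] at h1
    omega
  · intro x _
    exact Nat.mod_add_div x p
  · intro q hq
    rw [mem_product, mem_range, mem_range] at hq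
    refine Prod.ext ?_ ?_
    · show (q.1 + p * q.2) % p = q.1
      rw [Nat.add_mul_mod_self_left, Nat.mod_eq_of_lt hq.1]
    · show (q.1 + p * q.2) / p = q.2
      rw [Nat.add_mul_div_left _ _ hp, Nat.div_eq_of_lt hq.1, zero_add]
  · intro x _
    show f x = f (x % p + p * (x / p))
    rw [Nat.mod_add_div]

lemma quad_count (p : ℕ) [Fact p.Prime] (hp2 : p ≠ 2) (c : ZMod p) (hc : c ≠ 0) (b : Bool) :
    2 * (univ.filter (fun y : ZMod p => y ≠ 0 ∧
      (b = true ↔ quadraticChar (ZMod p) (y * c) = -1))).card = p - 1 := by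
  classical
  obtain ⟨Sm, hSm⟩ : ∃ S : Finset (ZMod p), S = univ.filter (fun y : ZMod p => y ≠ 0 ∧
    quadraticChar (ZMod p) (y * c) = -1) := ⟨_, rfl⟩
  obtain ⟨Sp, hSp⟩ : ∃ S : Finset (ZMod p), S = univ.filter (fun y : ZMod p => y ≠ 0 ∧
    ¬ quadraticChar (ZMod p) (y * c) = -1) := ⟨_, rfl⟩
  have h1 : Sm.card + Sp.card = p - 1 := by
    have e1 : (univ.filter (fun y : ZMod p => y ≠ 0)).card = p - 1 := by
      rw [Finset.filter_ne' univ (0 : ZMod p), Finset.card_erase_of_mem (mem_univ _), card_univ,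
        ZMod.card]
    rw [← e1, ← Finset.card_filter_add_card_filter_not (s := univ.filter (fun y : ZMod p => y ≠ 0))
      (fun y => quadraticChar (ZMod p) (y * c) = -1), Finset.filter_filter, Finset.filter_filter,
      hSm, hSp]
  have h2 : ∑ y : ZMod p, quadraticChar (ZMod p) (y * c) = 0 := by
    have e1 : ∑ y : ZMod p, quadraticChar (ZMod p) (y * c) = ∑ y : ZMod p,
        quadraticChar (ZMod p) y := by
      refine Fintype.sum_bijective (fun y => y * c) ?_ _ _ (fun y => rfl)
      exact (Equiv.mulRight₀ c hc).bijective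
    rw [e1]
    apply quadraticChar_sum_zero
    rw [ZMod.ringChar_zmod_n]
    exact hp2
  have h3 : ∑ y : ZMod p, quadraticChar (ZMod p) (y * c) = (Sp.card : ℤ) - Sm.card := by
    have e0 : ∑ y : ZMod p, quadraticChar (ZMod p) (y * c) =
        ∑ y ∈ univ.filter (fun y : ZMod p => y ≠ 0), quadraticChar (ZMod p) (y * c) := by
      rw [Finset.sum_filter]
      refine Finset.sum_congr rfl fun y _ => ?_
      by_cases hy : y = 0
      · rw [if_neg (by simpa using hy), hy, zero_mul, MulChar.map_zero]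
      · rw [if_pos hy]
    rw [e0, ← Finset.sum_filter_add_sum_filter_not (univ.filter (fun y : ZMod p => y ≠ 0))
      (fun y => quadraticChar (ZMod p) (y * c) = -1), Finset.filter_filter, Finset.filter_filter,
      ← hSm, ← hSp]
    have e1 : ∑ y ∈ Sm, quadraticChar (ZMod p) (y * c) = ∑ y ∈ Sm, (-1 : ℤ) := by
      refine Finset.sum_congr rfl fun y hy => ?_
      rw [hSm, mem_filter] at hy
      exact hy.2.2
    have e2 : ∑ y ∈ Sp, quadraticChar (ZMod p) (y * c) = ∑ y ∈ Sp, (1 : ℤ) := by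
      refine Finset.sum_congr rfl fun y hy => ?_
      rw [hSp, mem_filter] at hy
      rcases quadraticChar_dichotomy (mul_ne_zero hy.2.1 hc) with h | h
      · exact h
      · exact absurd h hy.2.2
    rw [e1, e2, Finset.sum_const, Finset.sum_const]
    simp
    ring
  have h4 : Sp.card = Sm.card := by
    rw [h2] at h3
    omega
  cases b
  · have : (univ.filter (fun y : ZMod p => y ≠ 0 ∧
        (false = true ↔ quadraticChar (ZMod p) (y * c) = -1))) = Sp := by
      rw [hSp]
      refine Finset.filter_congr fun y _ => ?_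
      simp
    rw [this]
    omega
  · have : (univ.filter (fun y : ZMod p => y ≠ 0 ∧
        (true = true ↔ quadraticChar (ZMod p) (y * c) = -1))) = Sm := by
      rw [hSm]
      refine Finset.filter_congr fun y _ => ?_
      simp
    rw [this]
    omega

/-- an affine bijection of `range p` with `ZMod p` -/
lemma aff_count (p : ℕ) [Fact p.Prime] (A B : ZMod p) (hB : B ≠ 0) (C : ℕ → Prop) [DecidablePred C]
    (D : ZMod p → Prop) [DecidablePred D] (hCD : ∀ t ∈ range p, (C t ↔ D (A + B * (t : ZMod p)))) :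
    ((range p).filter C).card = (univ.filter D).card := by
  classical
  refine Finset.card_nbij (fun t => A + B * (t : ZMod p)) ?_ ?_ ?_
  · intro t ht
    rw [mem_coe, mem_filter] at ht ⊢
    exact ⟨mem_univ _, (hCD t ht.1).1 ht.2⟩
  · intro t ht t' ht' h
    rw [mem_coe, mem_filter, mem_range] at ht ht'
    have h1 : B * (t : ZMod p) = B * (t' : ZMod p) := add_left_cancel h
    have h2 : (t : ZMod p) = (t' : ZMod p) := mul_left_cancel₀ hB h1
    rw [ZMod.natCast_eq_natCast_iff'] at h2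
    rwa [Nat.mod_eq_of_lt ht.1, Nat.mod_eq_of_lt ht'.1] at h2
  · intro y hy
    rw [mem_coe, mem_filter] at hy
    refine ⟨((y - A) * B⁻¹).val, ?_, ?_⟩
    · have hlt : ((y - A) * B⁻¹).val < p := ZMod.val_lt _
      rw [mem_coe, mem_filter, mem_range]
      refine ⟨hlt, (hCD _ (mem_range.2 hlt)).2 ?_⟩
      rw [ZMod.natCast_zmod_val]
      have : A + B * ((y - A) * B⁻¹) = y := by
        field_simp
        ring
      rw [this]
      exact hy.2
    · show A + B * ((((y - A) * B⁻¹).val : ℕ) : ZMod p) = y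
      rw [ZMod.natCast_zmod_val]
      field_simp
      ring

lemma eval_mod (P : ℤ[X]) (p : ℕ) (a t : ℤ) :
    ((P.eval (a + p * t) : ℤ) : ZMod p) = ((P.eval a : ℤ) : ZMod p) := by
  rw [ZMod.intCast_eq_intCast_iff_dvd_sub]
  have := Polynomial.sub_dvd_eval_sub a (a + p * t) P
  have h2 : a - (a + p * t) = p * (-t) := by ring
  rw [h2] at this
  exact (dvd_mul_right (p : ℤ) (-t)).trans this

lemma dvd_iff (P : ℤ[X]) (p : ℕ) (a t : ℤ) :
    (p : ℤ) ∣ P.eval (a + p * t) ↔ (p : ℤ) ∣ P.eval a := by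
  rw [← ZMod.intCast_zmod_eq_zero_iff_dvd, ← ZMod.intCast_zmod_eq_zero_iff_dvd, eval_mod]

/-- the quotient by `p` -/
lemma quo (P : ℤ[X]) (p : ℕ) (hp : 0 < p) (a t : ℤ) (h : (p : ℤ) ∣ P.eval a) :
    ∃ y : ℤ, P.eval (a + p * t) = p * y ∧
      (y : ZMod p) = ((P.eval a / (p : ℤ) : ℤ) : ZMod p) +
        ((derivative P).eval a : ℤ) * (t : ZMod p) := by
  obtain ⟨k, hk⟩ := Polynomial.binomExpansion P a (p * t)
  obtain ⟨A, hA⟩ := h
  refine ⟨A + (derivative P).eval a * t + k * p * t ^ 2, ?_, ?_⟩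
  · rw [hk, hA]; ring
  · rw [hA, Int.mul_ediv_cancel_left _ (by exact_mod_cast hp.ne')]
    push_cast
    rw [ZMod.natCast_self]
    ring

theorem locc_core (J : Type) [Fintype J] [DecidableEq J] (P : J → ℤ[X]) (p : ℕ) (hp : p.Prime)
    (hp2 : p ≠ 2)
    (hcop : ∀ j l, j ≠ l → ∀ x : ℤ, ¬ ((p : ℤ) ∣ (P j).eval x ∧ (p : ℤ) ∣ (P l).eval x))
    (hsep : ∀ j, ∀ x : ℤ, ¬ ((p : ℤ) ∣ (P j).eval x ∧ (p : ℤ) ∣ (derivative (P j)).eval x)) :
  (∀ (j : J) (b : Bool), 2 * ((range (p ^ 2)).filter (fun x : ℕ => (p : ℤ) ∣ (P j).eval (x : ℤ) ∧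
    ¬ (p : ℤ) ^ 2 ∣ (P j).eval (x : ℤ) ∧
    (b = true ↔ jacobiSym ((∏ l, (P l).eval (x : ℤ)) / (p : ℤ)) p = -1))).card =
      nz (P j) p * (p - 1)) ∧
  (∀ j, ((range (p ^ 2)).filter (fun x : ℕ => (p : ℤ) ^ 2 ∣ (P j).eval (x : ℤ))).card =
    nz (P j) p) := by
  classical
  have : Fact p.Prime := ⟨hp⟩
  have hp0 : 0 < p := hp.pos
  have hpz : (p : ℤ) ≠ 0 := by exact_mod_cast hp0.ne'
  have hB : ∀ j (a : ℤ), (p : ℤ) ∣ (P j).eval a →
      (((derivative (P j)).eval a : ℤ) : ZMod p) ≠ 0 := by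
    intro j a ha h0
    rw [ZMod.intCast_zmod_eq_zero_iff_dvd] at h0
    exact hsep j a ⟨ha, h0⟩
  constructor
  · intro j b
    rw [Finset.card_filter, sum_sq p hp0, Finset.mul_sum]
    have key : ∀ a ∈ range p, 2 * ∑ t ∈ range p, (if (p : ℤ) ∣ (P j).eval ((a + p * t : ℕ) : ℤ) ∧
        ¬ (p : ℤ) ^ 2 ∣ (P j).eval ((a + p * t : ℕ) : ℤ) ∧
        (b = true ↔ jacobiSym ((∏ l, (P l).eval ((a + p * t : ℕ) : ℤ)) / (p : ℤ)) p = -1)
        then 1 else 0) = if (p : ℤ) ∣ (P j).eval (a : ℤ) then (p - 1) else 0 := by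
      intro a _
      rw [← Finset.card_filter]
      split_ifs with ha
      · -- the constant
        obtain ⟨c, hc⟩ : ∃ c : ZMod p, c = ((∏ l ∈ univ.erase j, (P l).eval (a : ℤ) : ℤ) :
          ZMod p) := ⟨_, rfl⟩
        have hc0 : c ≠ 0 := by
          rw [hc]
          intro h0
          rw [ZMod.intCast_zmod_eq_zero_iff_dvd] at h0
          obtain ⟨l, hl, hl2⟩ := ((Nat.prime_iff_prime_int.1 hp).dvd_finsetProd_iff _).1 h0
          exact hcop j l (Ne.symm (Finset.ne_of_mem_erase hl)) a ⟨ha, hl2⟩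
        rw [aff_count p ((((P j).eval (a : ℤ) / (p : ℤ) : ℤ)) : ZMod p)
          (((derivative (P j)).eval (a : ℤ) : ℤ) : ZMod p) (hB j a ha) _
          (fun y : ZMod p => y ≠ 0 ∧ (b = true ↔ quadraticChar (ZMod p) (y * c) = -1)) ?_]
        · exact quad_count p hp2 c hc0 b
        · intro t _
          push_cast
          obtain ⟨y, hy1, hy2⟩ := quo (P j) p hp0 a t ha
          rw [Int.cast_natCast] at hy2
          rw [← hy2]
          have e1 : ∏ l, (P l).eval ((a : ℤ) + p * t) =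
              p * (y * ∏ l ∈ univ.erase j, (P l).eval ((a : ℤ) + p * t)) := by
            rw [← Finset.mul_prod_erase univ _ (mem_univ j), hy1]
            ring
          have e2 : (((∏ l ∈ univ.erase j, (P l).eval ((a : ℤ) + p * t) : ℤ)) : ZMod p) = c := by
            rw [hc, Int.cast_prod, Int.cast_prod]
            exact Finset.prod_congr rfl fun l _ => eval_mod (P l) p a t
          rw [e1, Int.mul_ediv_cancel_left _ hpz, hy1, ← jacobiSym.legendreSym.to_jacobiSym]
          unfold legendreSym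
          rw [Int.cast_mul, e2, sq, mul_dvd_mul_iff_left hpz]
          have e3 : (p : ℤ) ∣ y ↔ (y : ZMod p) = 0 := (ZMod.intCast_zmod_eq_zero_iff_dvd y p).symm
          rw [e3]
          constructor
          · rintro ⟨-, h1, h2⟩
            exact ⟨h1, h2⟩
          · rintro ⟨h1, h2⟩
            exact ⟨dvd_mul_right _ _, h1, h2⟩
      · rw [Finset.filter_false_of_mem, card_empty, mul_zero]
        rintro t _ ⟨h1, -⟩
        push_cast at h1
        rw [dvd_iff] at h1
        exact ha h1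
    rw [Finset.sum_congr rfl key, ← Finset.sum_filter, Finset.sum_const, smul_eq_mul]
    rfl
  · intro j
    rw [Finset.card_filter, sum_sq p hp0]
    have key : ∀ a ∈ range p, ∑ t ∈ range p,
        (if (p : ℤ) ^ 2 ∣ (P j).eval ((a + p * t : ℕ) : ℤ) then 1 else 0) =
        if (p : ℤ) ∣ (P j).eval (a : ℤ) then 1 else 0 := by
      intro a _
      rw [← Finset.card_filter]
      split_ifs with ha
      · rw [aff_count p ((((P j).eval (a : ℤ) / (p : ℤ) : ℤ)) : ZMod p)
          (((derivative (P j)).eval (a : ℤ) : ℤ) : ZMod p) (hB j a ha) _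
          (fun y : ZMod p => y = 0) ?_]
        · rw [Finset.filter_eq', if_pos (mem_univ _), card_singleton]
        · intro t _
          push_cast
          obtain ⟨y, hy1, hy2⟩ := quo (P j) p hp0 a t ha
          rw [Int.cast_natCast] at hy2
          rw [← hy2, hy1, sq, mul_dvd_mul_iff_left hpz]
          exact (ZMod.intCast_zmod_eq_zero_iff_dvd y p).symm
      · rw [Finset.filter_false_of_mem, card_empty]
        intro t _ h1
        push_cast at h1
        have h2 := (dvd_pow_self (p : ℤ) two_ne_zero).trans h1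
        rw [dvd_iff] at h2
        exact ha h2
    rw [Finset.sum_congr rfl key, ← Finset.card_filter]
    rfl

theorem locc : LOCC := by
  intro J _ _ P p hp hp2 hcop hsep
  exact locc_core J P p hp hp2 hcop hsep

end Pool.Agent.W479.QF
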